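import Mathlib
import Pool.Agent.Q259.Spec

set_option autoImplicit false

namespace Pool.Agent.Results.MP_4a987e_co.Spider

open Matrix Finset Pool.Agent.Q259.Spec

theorem isHermitian_adj {V : Type} [Fintype V] [DecidableEq V] (G : SimpleGraph V)
    [DecidableRel G.Adj] : (G.adjMatrix ℝ).IsHermitian := by
  rw [Matrix.IsHermitian, Matrix.conjTranspose_eq_transpose_of_trivial]
  exact G.isSymm_adjMatrix

/-- The energy of a graph: the sum of the absolute values of the eigenvalues of its adjacency
matrix, counted with multiplicity. -/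
noncomputable def energy {V : Type} [Fintype V] [DecidableEq V] (G : SimpleGraph V)
    [DecidableRel G.Adj] : ℝ :=
  ∑ i, |(isHermitian_adj G).eigenvalues i|

/-- The largest eigenvalue of the adjacency matrix of a graph. -/
noncomputable def lambdaOne {V : Type} [Fintype V] [DecidableEq V] (G : SimpleGraph V)
    [DecidableRel G.Adj] : ℝ :=
  ⨆ i, (isHermitian_adj G).eigenvalues i

/-- vertices of the spider: a centre `none`, and for each of the `16` legs a middle vertex
`(i, false)` and a leaf `(i, true)`. -/
abbrev W : Type := Option (Fin 16 × Bool)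

/-- adjacency in the spider, as a Boolean -/
def adjB : W → W → Bool
  | none, some (_, false) => true
  | some (_, false), none => true
  | some (i, false), some (j, true) => decide (i = j)
  | some (i, true), some (j, false) => decide (i = j)
  | _, _ => false

/-- The spider with `16` legs of length `2`. -/
def spider : SimpleGraph W where
  Adj a b := adjB a b = true
  symm := ⟨by
    rintro (_ | ⟨i, _ | _⟩) (_ | ⟨j, _ | _⟩) <;> simp [adjB, eq_comm]⟩
  loopless := ⟨by
    rintro (_ | ⟨i, _ | _⟩) <;> simp [adjB]⟩

instance : DecidableRel spider.Adj := fun a b => inferInstanceAs (Decidable (adjB a b = true))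

theorem adj_entry (a b : W) : spider.adjMatrix ℝ a b = if adjB a b = true then 1 else 0 := by
  rw [SimpleGraph.adjMatrix_apply]
  rfl

theorem connected : spider.Connected := by
  have h : ∀ a : W, spider.Reachable none a := by
    rintro (_ | ⟨i, _ | _⟩)
    · exact SimpleGraph.Reachable.refl _
    · exact SimpleGraph.Adj.reachable (show adjB _ _ = true by simp [adjB])
    · exact (SimpleGraph.Adj.reachable (G := spider) (v := some (i, false))
        (show adjB _ _ = true by simp [adjB])).trans
        (SimpleGraph.Adj.reachable (show adjB _ _ = true by simp [adjB]))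
  exact (SimpleGraph.connected_iff _).mpr ⟨fun a b => (h a).symm.trans (h b), ⟨none⟩⟩

theorem card_edges : spider.edgeFinset.card = 32 := by
  have h := spider.sum_degrees_eq_twice_card_edges
  have h2 : ∑ v, spider.degree v = 64 := by decide +kernel
  omega

/-- swap the middle vertex and the leaf of each leg -/
def P : Matrix W W ℝ := Matrix.of fun a b =>
  match a, b with
  | some (i, false), some (j, true) => if i = j then 1 else 0
  | some (i, true), some (j, false) => if i = j then 1 else 0
  | _, _ => 0

theorem P_mulVec (x : W → ℝ) : P *ᵥ x = fun a =>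
    match a with
    | none => 0
    | some (i, b) => x (some (i, !b)) := by
  ext a
  rcases a with _ | ⟨i, _ | _⟩ <;>
    simp [Matrix.mulVec, dotProduct, P, Fintype.sum_option, Fintype.sum_prod_type]

theorem P_quad (x : W → ℝ) : |x ⬝ᵥ (P *ᵥ x)| ≤ x ⬝ᵥ x := by
  rw [P_mulVec]
  simp only [dotProduct, Fintype.sum_option, Fintype.sum_prod_type, Fintype.sum_bool, mul_zero,
    zero_add, Bool.not_true, Bool.not_false]
  have h : |∑ i : Fin 16, (x (some (i, true)) * x (some (i, false)) +
      x (some (i, false)) * x (some (i, true)))| ≤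
      ∑ i : Fin 16, (x (some (i, true)) * x (some (i, true)) +
      x (some (i, false)) * x (some (i, false))) := by
    refine (Finset.abs_sum_le_sum_abs _ _).trans (Finset.sum_le_sum fun i _ => ?_)
    rw [abs_le]
    constructor
    · nlinarith [sq_nonneg (x (some (i, true)) + x (some (i, false)))]
    · nlinarith [sq_nonneg (x (some (i, true)) - x (some (i, false)))]
  nlinarith [mul_self_nonneg (x none)]

theorem P_trace : (P * spider.adjMatrix ℝ).trace = 32 := by
  simp only [Matrix.trace, Matrix.diag_apply, Matrix.mul_apply, adj_entry]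
  simp [Fintype.sum_option, Fintype.sum_prod_type, P, adjB]
  norm_num

theorem energy_ge : 32 ≤ energy spider := by
  rw [← P_trace]
  exact trace_mul_le (isHermitian_adj spider) P P_quad

/-- the test vector -/
noncomputable def tv : W → ℝ
  | none => 16
  | some (_, false) => Real.sqrt 17
  | some (_, true) => 1

theorem tv_dot : tv ⬝ᵥ tv = 544 := by
  simp only [dotProduct, Fintype.sum_option, Fintype.sum_prod_type, Fintype.sum_bool, tv]
  rw [Real.mul_self_sqrt (by norm_num)]
  simp
  norm_num

theorem tv_mul : tv ⬝ᵥ (spider.adjMatrix ℝ *ᵥ tv) = 544 * Real.sqrt 17 := by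
  simp only [Matrix.mulVec, dotProduct, adj_entry]
  simp [Fintype.sum_option, Fintype.sum_prod_type, adjB, tv]
  ring

theorem quad_le {V : Type} [Fintype V] [DecidableEq V] (G : SimpleGraph V)
    [DecidableRel G.Adj] (x : V → ℝ) :
    x ⬝ᵥ (G.adjMatrix ℝ *ᵥ x) ≤ lambdaOne G * (x ⬝ᵥ x) := by
  have hA := isHermitian_adj G
  rw [dot_eq hA x (G.adjMatrix ℝ *ᵥ x), dot_eq hA x x, Finset.mul_sum]
  refine Finset.sum_le_sum fun i _ => ?_
  rw [ev_dot_mulVec]
  have h1 : hA.eigenvalues i ≤ lambdaOne G :=
    le_ciSup (f := fun i => hA.eigenvalues i) (Set.finite_range _).bddAbove i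
  have h2 : 0 ≤ (ev hA i ⬝ᵥ x) * (ev hA i ⬝ᵥ x) := mul_self_nonneg _
  nlinarith

theorem lambda_ge : Real.sqrt 17 ≤ lambdaOne spider := by
  have h := quad_le spider tv
  rw [tv_mul, tv_dot] at h
  linarith

/-- The spider with `16` legs of length `2` (33 vertices, 32 edges) violates `E ≤ 2m/√λ₁`. -/
theorem result : ∃ (V : Type) (_ : Fintype V) (_ : DecidableEq V) (G : SimpleGraph V)
    (_ : DecidableRel G.Adj), G.Connected ∧ 1 ≤ G.edgeFinset.card ∧
    2 * (G.edgeFinset.card : ℝ) / Real.sqrt (lambdaOne G) < energy G := by
  refine ⟨W, inferInstance, inferInstance, spider, inferInstance, connected, ?_, ?_⟩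
  · rw [card_edges]; norm_num
  · rw [card_edges]
    refine lt_of_lt_of_le ?_ energy_ge
    have h1 : (4 : ℝ) < Real.sqrt 17 := by
      rw [Real.lt_sqrt (by norm_num)]; norm_num
    have h2 : (4 : ℝ) < lambdaOne spider := h1.trans_le lambda_ge
    have h3 : (2 : ℝ) < Real.sqrt (lambdaOne spider) := by
      rw [Real.lt_sqrt (by norm_num)]; linarith
    rw [div_lt_iff₀ (by linarith)]
    push_cast
    linarith

end Pool.Agent.Results.MP_4a987e_co.Spider
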